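import Pool.Agent.H68.N.Fin2

set_option autoImplicit false

namespace Pool.Agent.Results.MP_7346c2_lc.BoundedDimension

open Pool.Agent.H68.WL Pool.Agent.H68.WLN

/-- An upper bound on the Weisfeiler-Leman dimension of groups without nontrivial abelian normal
subgroups, with no restriction on the number of simple factors of a minimal normal subgroup.

`DuplicatorWins k G H` is the hypothesis of the frozen statement: Duplicator wins the bijective
game with `k` pairs of pebbles. `IsSocleFactor R` says that `R` is a minimal normal subgroup of a
minimal normal subgroup. `LiftGen D R` says that any `D` automorphisms of `R` can be multiplied by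
inner automorphisms so that they generate a group containing all inner automorphisms (true with
`D = 2` for every finite nonabelian simple group).

Let `G` be such a group, `LiftGen D R` for all nonabelian socle factors `R` of all quotients of
`G`. Let `J` be a set of at most `t ^ L` minimal normal subgroups of `G` whose socle factors have
order at least `t`. Suppose that `G` is generated by `d` elements together with the elements
centralizing all minimal normal subgroups but one and the elements centralizing all minimal normal
subgroups outside `J`. Then `D + L + d + 30` pebbles tell `G` apart from every non-isomorphic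
finite group. -/
theorem result (D t L d : ℕ) (G : Type) [Group G] [Finite G]
    (hss : ∀ N : Subgroup G, N.Normal → (∀ x ∈ N, ∀ y ∈ N, x * y = y * x) → N = ⊥)
    (hD : ∀ (N : Subgroup G) [N.Normal] (R : Subgroup (G ⧸ N)), IsSocleFactor R →
      (∃ a ∈ R, ∃ b ∈ R, a * b ≠ b * a) → LiftGen D R)
    (J : Set (Subgroup G)) (hJ : ∀ M ∈ J, IsMinNormal M) (hJc : J.ncard ≤ t ^ L)
    (hJt : ∀ M ∈ J, ∀ T, IsMinNormalIn M T → t ≤ Nat.card T) (gen : Fin d → G)
    (hgen : Subgroup.closure ({g | ∃ M : Subgroup G, IsMinNormal M ∧
      ∀ M' : Subgroup G, IsMinNormal M' → M' ≠ M → ∀ z ∈ M', g * z = z * g} ∪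
      {g | ∀ M : Subgroup G, IsMinNormal M → M ∉ J → ∀ z ∈ M, g * z = z * g} ∪
      Set.range gen) = ⊤) :
    ∀ k : ℕ, D + L + d + 30 ≤ k →
      ∀ (H : Type) [Group H] [Finite H], DuplicatorWins k G H → Nonempty (G ≃* H) :=
  fun _ hk _ _ _ hW => main D t L d hss hD J hJ hJc hJt gen hgen hk hW

end Pool.Agent.Results.MP_7346c2_lc.BoundedDimension
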